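import Mathlib.ModelTheory.Semantics
import Pool.Agent.Helper437.ArithDef

/-! Uniform first-order definability in a family of structures with parameters, and the class of
arithmetical predicates defined on an interpreted copy of the naturals. -/

namespace Pool.Agent.Helper437.ModelDef

open FirstOrder FirstOrder.Language Pool.Agent.Helper437.ArithDef

universe u v w x y

section
variable {L : Language.{u, v}} {ι : Type x} {M : ι → Type w} [∀ i, L.Structure (M i)] {P : Type y}

/-- `R` is uniformly definable in the family `M` with parameters `par`. -/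
def DM (L : Language.{u, v}) {ι : Type x} {M : ι → Type w} [∀ i, L.Structure (M i)] {P : Type y}
    (par : ∀ i, P → M i) (R : ∀ i, (ℕ → M i) → Prop) : Prop :=
  ∃ φ : L.Formula (P ⊕ ℕ), ∀ i (v : ℕ → M i), φ.Realize (Sum.elim (par i) v) ↔ R i v

/-- variable shift used for quantification -/
def shft : P ⊕ ℕ → (P ⊕ ℕ) ⊕ Fin 1
  | .inl p => .inl (.inl p)
  | .inr 0 => .inr 0
  | .inr (n + 1) => .inl (.inr n)

/-- universal quantification over variable `0`, shifting the others down -/
def qall (φ : L.Formula (P ⊕ ℕ)) : L.Formula (P ⊕ ℕ) :=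
  (BoundedFormula.relabel (n := 1) (shft (P := P)) φ : L.BoundedFormula (P ⊕ ℕ) 1).all

theorem realize_qall {N : Type w} [L.Structure N] (φ : L.Formula (P ⊕ ℕ)) (p : P → N) (v : ℕ → N) :
    (qall φ).Realize (Sum.elim p v) ↔ ∀ a : N, φ.Realize (Sum.elim p (cns a v)) := by
  unfold qall Formula.Realize
  rw [BoundedFormula.realize_all]
  refine forall_congr' fun a => ?_
  rw [BoundedFormula.realize_relabel]
  have h1 : (Sum.elim (Sum.elim p v) ((Fin.snoc default a : Fin 1 → N) ∘ Fin.castAdd 0) ∘ shft)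
      = Sum.elim p (cns a v) := by
    funext s
    rcases s with p' | n
    · rfl
    · cases n with
      | zero => rfl
      | succ n => rfl
  rw [h1]
  have h2 : ((Fin.snoc default a : Fin 1 → N) ∘ Fin.natAdd 1 : Fin 0 → N) = default :=
    Subsingleton.elim _ _
  exact iff_of_eq (congrArg (BoundedFormula.Realize φ (Sum.elim p (cns a v))) h2)

/-- renaming of variables -/
theorem realize_ren {N : Type w} [L.Structure N] (φ : L.Formula (P ⊕ ℕ)) (ρ : ℕ → ℕ) (p : P → N)
    (v : ℕ → N) :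
    (φ.relabel (Sum.map id ρ)).Realize (Sum.elim p v) ↔
      φ.Realize (Sum.elim p (fun n => v (ρ n))) := by
  rw [Formula.realize_relabel]
  have : Sum.elim p v ∘ Sum.map id ρ = Sum.elim p (fun n => v (ρ n)) := by
    funext s; rcases s with p' | n <;> rfl
  rw [this]

namespace DM

variable {par : ∀ i, P → M i}

theorem iff {R S : ∀ i, (ℕ → M i) → Prop} (h : ∀ i v, R i v ↔ S i v) (hR : DM L par R) :
    DM L par S := by
  obtain ⟨φ, hφ⟩ := hR
  exact ⟨φ, fun i v => (hφ i v).trans (h i v)⟩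

theorem bot : DM L par (fun _ _ => False) := ⟨⊥, fun _ _ => Formula.realize_bot⟩

theorem imp {R S : ∀ i, (ℕ → M i) → Prop} (hR : DM L par R) (hS : DM L par S) :
    DM L par (fun i v => R i v → S i v) := by
  obtain ⟨φ, hφ⟩ := hR
  obtain ⟨ψ, hψ⟩ := hS
  exact ⟨φ.imp ψ, fun i v => by rw [Formula.realize_imp, hφ, hψ]⟩

theorem not {R : ∀ i, (ℕ → M i) → Prop} (hR : DM L par R) : DM L par (fun i v => ¬ R i v) :=
  imp hR bot

theorem and {R S : ∀ i, (ℕ → M i) → Prop} (hR : DM L par R) (hS : DM L par S) :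
    DM L par (fun i v => R i v ∧ S i v) :=
  iff (fun i v => by tauto) (not (imp hR (not hS)))

theorem or {R S : ∀ i, (ℕ → M i) → Prop} (hR : DM L par R) (hS : DM L par S) :
    DM L par (fun i v => R i v ∨ S i v) :=
  iff (fun i v => by tauto) (imp (not hR) hS)

theorem iff' {R S : ∀ i, (ℕ → M i) → Prop} (hR : DM L par R) (hS : DM L par S) :
    DM L par (fun i v => R i v ↔ S i v) :=
  iff (fun i v => by tauto) (and (imp hR hS) (imp hS hR))

theorem all {S : ∀ i, M i → (ℕ → M i) → Prop}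
    (hR : DM L par (fun i v => S i (v 0) (fun n => v (n + 1)))) :
    DM L par (fun i v => ∀ a, S i a v) := by
  obtain ⟨φ, hφ⟩ := hR
  refine ⟨qall φ, fun i v => ?_⟩
  rw [realize_qall]
  refine forall_congr' fun a => ?_
  rw [hφ]
  simp

theorem ex {S : ∀ i, M i → (ℕ → M i) → Prop}
    (hR : DM L par (fun i v => S i (v 0) (fun n => v (n + 1)))) :
    DM L par (fun i v => ∃ a, S i a v) :=
  iff (fun i v => by simp) (not (all (S := fun i a v => ¬ S i a v) (not hR)))

theorem ren {R : ∀ i, (ℕ → M i) → Prop} (ρ : ℕ → ℕ) (hR : DM L par R) :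
    DM L par (fun i v => R i (fun n => v (ρ n))) := by
  obtain ⟨φ, hφ⟩ := hR
  exact ⟨φ.relabel (Sum.map id ρ), fun i v => by rw [realize_ren, hφ]⟩

theorem term (t₁ t₂ : L.Term (P ⊕ ℕ)) :
    DM L par (fun i v => t₁.realize (Sum.elim (par i) v) = t₂.realize (Sum.elim (par i) v)) :=
  ⟨t₁.equal t₂, fun _ _ => Formula.realize_equal⟩

theorem const (p : Prop) : DM L par (fun _ _ => p) := by
  by_cases h : p
  · exact iff (fun _ _ => by simp [h]) (not bot)
  · exact iff (fun _ _ => by simp [h]) bot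

theorem var_eq (a b : ℕ) : DM L par (fun _ v => v a = v b) :=
  term (Term.var (Sum.inr a)) (Term.var (Sum.inr b))

theorem var_eq_par (a : ℕ) (p : P) : DM L par (fun i v => v a = par i p) :=
  term (Term.var (Sum.inr a)) (Term.var (Sum.inl p))

end DM

/-- Data of an interpreted copy of the naturals in each member of the family. -/
structure Interp (par : ∀ i, P → M i) (nu : ∀ i, ℕ → M i) : Prop where
  rng : DM L par (fun i v => ∃ n, v 0 = nu i n)
  add : ∃ R : ∀ i, (ℕ → M i) → Prop, DM L par R ∧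
    ∀ i (w : ℕ → ℕ), R i (fun n => nu i (w n)) ↔ w 0 + w 1 = w 2
  mul : ∃ R : ∀ i, (ℕ → M i) → Prop, DM L par R ∧
    ∀ i (w : ℕ → ℕ), R i (fun n => nu i (w n)) ↔ w 0 * w 1 = w 2

/-- `R` is uniformly defined on the interpreted naturals. -/
def DN (L : Language.{u, v}) {ι : Type x} {M : ι → Type w} [∀ i, L.Structure (M i)] {P : Type y}
    (par : ∀ i, P → M i) (nu : ∀ i, ℕ → M i) (R : (ℕ → ℕ) → Prop) : Prop :=
  ∃ φ : L.Formula (P ⊕ ℕ), ∀ i (w : ℕ → ℕ),
    φ.Realize (Sum.elim (par i) (fun n => nu i (w n))) ↔ R w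

theorem DN.closed {par : ∀ i, P → M i} {nu : ∀ i, ℕ → M i} (h : Interp (L := L) par nu) :
    DC (DN L par nu) where
  add := by
    obtain ⟨R, ⟨φ, hφ⟩, hR⟩ := h.add
    exact ⟨φ, fun i w => by rw [hφ, hR]⟩
  mul := by
    obtain ⟨R, ⟨φ, hφ⟩, hR⟩ := h.mul
    exact ⟨φ, fun i w => by rw [hφ, hR]⟩
  bot := ⟨⊥, fun _ _ => Formula.realize_bot⟩
  imp := by
    rintro R S ⟨φ, hφ⟩ ⟨ψ, hψ⟩
    exact ⟨φ.imp ψ, fun i v => by rw [Formula.realize_imp, hφ, hψ]⟩
  all := by
    rintro R ⟨φ, hφ⟩
    obtain ⟨ν, hν⟩ := h.rng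
    refine ⟨qall (ν.imp φ), fun i w => ?_⟩
    rw [realize_qall]
    constructor
    · intro hw a
      have := hw (nu i a)
      rw [Formula.realize_imp, hν] at this
      have h2 := this ⟨a, rfl⟩
      rw [← hφ i (cns a w)]
      have h3 : (fun n => nu i (cns a w n)) = cns (nu i a) (fun n => nu i (w n)) :=
        cns_comp (nu i) a w
      rw [h3]
      exact h2
    · intro hw a
      rw [Formula.realize_imp, hν]
      rintro ⟨n, hn⟩
      simp only [cns_zero] at hn
      subst hn
      have := (hφ i (cns n w)).2 (hw n)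
      have h3 : (fun k => nu i (cns n w k)) = cns (nu i n) (fun k => nu i (w k)) :=
        cns_comp (nu i) n w
      rw [h3] at this
      exact this
  ren := by
    rintro R ρ ⟨φ, hφ⟩
    exact ⟨φ.relabel (Sum.map id ρ), fun i w => by rw [realize_ren, hφ]⟩

end

end Pool.Agent.Helper437.ModelDef
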