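import Mathlib.Computability.Halting
import Mathlib.Computability.TuringMachine.ToPartrec

/-! A fixed deterministic four-stack machine with finitely many states whose two kinds of halting
computations are recursively inseparable. -/

namespace Pool.Agent.Helper437.StackMachine

open Turing Turing.PartrecToTM2 Function

/-- atomic instructions of a machine with stacks indexed by `K'` and stack alphabet `Γ'` -/
inductive Ins (Q : Type) : Type
  | push : K' → Γ' → Q → Ins Q
  | pop : K' → (Option Γ' → Q) → Ins Q
  | peek : K' → (Option Γ' → Q) → Ins Q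
  | jump : Q → Ins Q
  | halt : Ins Q

/-- configurations: a state and the contents of the stacks -/
abbrev Conf (Q : Type) := Q × (K' → List Γ')

/-- one step -/
def stp {Q : Type} (prog : Q → Ins Q) (c : Conf Q) : Option (Conf Q) :=
  match prog c.1 with
  | .push k x q => some (q, update c.2 k (x :: c.2 k))
  | .pop k f => some (f (c.2 k).head?, update c.2 k (c.2 k).tail)
  | .peek k f => some (f (c.2 k).head?, c.2)
  | .jump q => some (q, c.2)
  | .halt => none

/-- the configuration after exactly `t` steps -/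
def run {Q : Type} (prog : Q → Ins Q) : ℕ → Conf Q → Option (Conf Q)
  | 0, c => some c
  | t + 1, c => (stp prog c).bind (run prog t)

/-- `q'` is a possible successor state of `q` -/
def Next {Q : Type} (prog : Q → Ins Q) (q q' : Q) : Prop :=
  match prog q with
  | .push _ _ r => q' = r
  | .pop _ f => ∃ o, q' = f o
  | .peek _ f => ∃ o, q' = f o
  | .jump r => q' = r
  | .halt => False

theorem next_of_stp {Q : Type} {prog : Q → Ins Q} {c c' : Conf Q} (h : stp prog c = some c') :
    Next prog c.1 c'.1 := by
  unfold stp at h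
  unfold Next
  cases hp : prog c.1 <;> rw [hp] at h <;> simp only [Option.some.injEq, reduceCtorEq] at h
  · rw [← h]
  · rw [← h]; exact ⟨_, rfl⟩
  · rw [← h]; exact ⟨_, rfl⟩
  · rw [← h]

theorem run_add {Q : Type} {prog : Q → Ins Q} {c d e : Conf Q} {s t : ℕ}
    (h1 : run prog s c = some d) (h2 : run prog t d = some e) : run prog (s + t) c = some e := by
  induction s generalizing c with
  | zero =>
    simp only [run, Option.some.injEq] at h1
    subst h1
    rwa [Nat.zero_add]
  | succ s ih =>
    simp only [run] at h1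
    rw [Nat.succ_add]
    simp only [run]
    cases hc : stp prog c with
    | none => rw [hc] at h1; simp at h1
    | some c' =>
      rw [hc] at h1
      simp only [Option.bind_some] at h1 ⊢
      exact ih h1

/-- statements of Mathlib's machine -/
abbrev St2 := TM2.Stmt (fun _ : K' => Γ') Λ' (Option Γ')

/-- the machine of Mathlib, in atomic steps -/
def prg : St2 × Option Γ' → Ins (St2 × Option Γ')
  | (TM2.Stmt.push k f q, v) => .push k (f v) (q, v)
  | (TM2.Stmt.peek k f q, v) => .peek k (fun o => (q, f v o))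
  | (TM2.Stmt.pop k f q, v) => .pop k (fun o => (q, f v o))
  | (TM2.Stmt.load a q, v) => .jump (q, a v)
  | (TM2.Stmt.branch f q₁ q₂, v) => .jump (cond (f v) q₁ q₂, v)
  | (TM2.Stmt.goto l, v) => .jump (tr (l v), v)
  | (TM2.Stmt.halt, _) => .halt

/-- conversion of configurations -/
def conv : TM2.Cfg (fun _ : K' => Γ') Λ' (Option Γ') → Conf (St2 × Option Γ')
  | ⟨some l, v, S⟩ => ((tr l, v), S)
  | ⟨none, v, S⟩ => ((TM2.Stmt.halt, v), S)

theorem run_stepAux (q : St2) (v : Option Γ') (S : K' → List Γ') :
    ∃ t, run prg t ((q, v), S) = some (conv (TM2.stepAux q v S)) := by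
  induction q generalizing v S with
  | push k f q ih =>
    obtain ⟨t, ht⟩ := ih v (update S k (f v :: S k))
    exact ⟨t + 1, by simpa [run, stp, prg] using ht⟩
  | peek k f q ih =>
    obtain ⟨t, ht⟩ := ih (f v (S k).head?) S
    exact ⟨t + 1, by simpa [run, stp, prg] using ht⟩
  | pop k f q ih =>
    obtain ⟨t, ht⟩ := ih (f v (S k).head?) (update S k (S k).tail)
    exact ⟨t + 1, by simpa [run, stp, prg] using ht⟩
  | load a q ih =>
    obtain ⟨t, ht⟩ := ih (a v) S
    exact ⟨t + 1, by simpa [run, stp, prg] using ht⟩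
  | branch f q₁ q₂ ih₁ ih₂ =>
    have e1 : ∀ t, run prg (t + 1) ((TM2.Stmt.branch f q₁ q₂, v), S) =
        run prg t ((cond (f v) q₁ q₂, v), S) := fun _ => rfl
    have e2 : TM2.stepAux (TM2.Stmt.branch f q₁ q₂) v S =
        cond (f v) (TM2.stepAux q₁ v S) (TM2.stepAux q₂ v S) := rfl
    cases hf : f v with
    | true =>
      obtain ⟨t, ht⟩ := ih₁ v S
      refine ⟨t + 1, ?_⟩
      rw [e1, e2, hf]
      exact ht
    | false =>
      obtain ⟨t, ht⟩ := ih₂ v S
      refine ⟨t + 1, ?_⟩
      rw [e1, e2, hf]
      exact ht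
  | goto l => exact ⟨1, by simp [run, stp, prg, conv]⟩
  | halt => exact ⟨0, by simp [run, conv]⟩

theorem run_of_reaches {a b : TM2.Cfg (fun _ : K' => Γ') Λ' (Option Γ')} (h : StateTransition.Reaches (TM2.step tr) a b) :
    ∃ t, run prg t (conv a) = some (conv b) := by
  induction h with
  | refl => exact ⟨0, rfl⟩
  | @tail b c _ hbc ih =>
    obtain ⟨t, ht⟩ := ih
    rcases b with ⟨_ | l, v, S⟩
    · exact absurd hbc (Option.not_mem_none c)
    · have h1 : TM2.stepAux (tr l) v S = c := Option.some.inj hbc
      subst h1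
      obtain ⟨s, hs⟩ := run_stepAux (tr l) v S
      exact ⟨t + s, run_add ht hs⟩

/-- finitely many states suffice -/
theorem exists_states (c : ToPartrec.Code) : ∃ St : Finset (St2 × Option Γ'),
    (∀ v, ((tr (trNormal c Cont'.halt), v) ∈ St)) ∧ (∀ v, ((TM2.Stmt.halt : St2), v) ∈ St) ∧
    ∀ q ∈ St, ∀ q', Next prg q q' → q' ∈ St := by
  classical
  have hs := tr_supports c Cont'.halt
  have hfin : Set.Finite {s : St2 | s = TM2.Stmt.halt ∨
      some s ∈ TM2.stmts tr (codeSupp c Cont'.halt)} := by
    refine Set.Finite.union (Set.finite_singleton _) ?_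
    exact Set.Finite.preimage (Option.some_injective _).injOn
      (Finset.finite_toSet (TM2.stmts tr (codeSupp c Cont'.halt)))
  have hB : ∀ s : St2, s ∈ hfin.toFinset ↔ s = TM2.Stmt.halt ∨
      some s ∈ TM2.stmts tr (codeSupp c Cont'.halt) := fun s => hfin.mem_toFinset
  generalize hfin.toFinset = B at hB
  have hmem : ∀ (x : St2 × Option Γ'), x ∈ B ×ˢ (Finset.univ : Finset (Option Γ')) ↔
      (x.1 = TM2.Stmt.halt ∨ some x.1 ∈ TM2.stmts tr (codeSupp c Cont'.halt)) := by
    intro x
    rw [Finset.mem_product]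
    constructor
    · intro h; exact (hB _).1 h.1
    · intro h; exact ⟨(hB _).2 h, Finset.mem_univ _⟩
  have hlab : ∀ l ∈ codeSupp c Cont'.halt, some ((tr l : St2)) ∈
      TM2.stmts tr (codeSupp c Cont'.halt) := by
    intro l hl
    unfold TM2.stmts
    refine Finset.some_mem_insertNone.2 (Finset.mem_biUnion.2 ?_)
    exact ⟨l, hl, TM2.stmts₁_self⟩
  refine ⟨B ×ˢ Finset.univ, ?_, ?_, ?_⟩
  · intro v
    exact (hmem _).2 (Or.inr (hlab _ hs.1))
  · intro v
    exact (hmem _).2 (Or.inl rfl)
  · intro q hq q' hq'
    refine (hmem q').2 ?_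
    rcases q with ⟨q, v⟩
    rcases (hmem _).1 hq with h | hq
    · simp only at h
      subst h
      exact hq'.elim
    · simp only at hq
      cases q with
      | push k f q =>
        have : q' = (q, v) := hq'
        rw [this]
        exact Or.inr (TM2.stmts_trans (Finset.mem_insert_of_mem TM2.stmts₁_self) hq)
      | peek k f q =>
        obtain ⟨o, ho⟩ : ∃ o, q' = (q, f v o) := hq'
        rw [ho]
        exact Or.inr (TM2.stmts_trans (Finset.mem_insert_of_mem TM2.stmts₁_self) hq)
      | pop k f q =>
        obtain ⟨o, ho⟩ : ∃ o, q' = (q, f v o) := hq'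
        rw [ho]
        exact Or.inr (TM2.stmts_trans (Finset.mem_insert_of_mem TM2.stmts₁_self) hq)
      | load a q =>
        have : q' = (q, a v) := hq'
        rw [this]
        exact Or.inr (TM2.stmts_trans (Finset.mem_insert_of_mem TM2.stmts₁_self) hq)
      | branch f q₁ q₂ =>
        have : q' = (cond (f v) q₁ q₂, v) := hq'
        rw [this]
        cases f v
        · exact Or.inr (TM2.stmts_trans (Finset.mem_insert_of_mem (Finset.mem_union_right _
            TM2.stmts₁_self)) hq)
        · exact Or.inr (TM2.stmts_trans (Finset.mem_insert_of_mem (Finset.mem_union_left _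
            TM2.stmts₁_self)) hq)
      | goto l =>
        have : q' = (tr (l v), v) := hq'
        rw [this]
        refine Or.inr (hlab _ ?_)
        exact @TM2.stmts_supportsStmt _ _ _ _ ⟨trNormal c Cont'.halt⟩ _ _ _ hs hq v
      | halt => exact hq'.elim

/-- self-application of the `n`-th program -/
def selfEval (n : ℕ) : Part ℕ :=
  Nat.Partrec.Code.eval (Denumerable.ofNat Nat.Partrec.Code n) n

/-- the two sets of programs returning `0`, respectively `1`, on themselves are recursively
inseparable -/
theorem inseparable (P : ℕ → Prop) (h0 : ∀ n, 0 ∈ selfEval n → ¬ P n)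
    (h1 : ∀ n, 1 ∈ selfEval n → P n) : ¬ ComputablePred P := by
  intro hP
  obtain ⟨f, hf, hfe⟩ := ComputablePred.computable_iff.1 hP
  have hg : Computable (fun n => bif f n then 0 else 1 : ℕ → ℕ) :=
    Computable.cond hf (Computable.const 0) (Computable.const 1)
  obtain ⟨c, hc⟩ := Nat.Partrec.Code.exists_code.1 (Partrec.nat_iff.1 hg.partrec)
  have hs : selfEval (Encodable.encode c) = Part.some (bif f (Encodable.encode c) then 0 else 1) := by
    unfold selfEval
    rw [Denumerable.ofNat_encode, hc]
    rfl
  have hPc : P (Encodable.encode c) ↔ f (Encodable.encode c) = true := by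
    have := congrFun hfe (Encodable.encode c)
    exact iff_of_eq this
  cases hfc : f (Encodable.encode c) with
  | true =>
    rw [hfc] at hs
    exact h0 _ (by rw [hs]; simp) (hPc.2 hfc)
  | false =>
    rw [hfc] at hs
    have := hPc.1 (h1 _ (by rw [hs]; simp))
    rw [hfc] at this
    exact Bool.false_ne_true this

/-- the input configuration -/
def inp (n : ℕ) : K' → List Γ' := K'.elim (trList [n]) [] [] []

/-- A universal machine: its halting computations distinguish the two inseparable sets. -/
theorem exists_machine : ∃ (Q : Type) (prog : Q → Ins Q) (St : Finset Q) (q0 qh : Q),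
    q0 ∈ St ∧ qh ∈ St ∧ (∀ q ∈ St, ∀ q', Next prog q q' → q' ∈ St) ∧ prog qh = .halt ∧
    (∀ n, 0 ∈ selfEval n → ∃ t S, run prog t (q0, inp n) = some (qh, S) ∧
      (S K'.main).head? ≠ some Γ'.bit1) ∧
    (∀ n, 1 ∈ selfEval n → ∃ t S, run prog t (q0, inp n) = some (qh, S) ∧
      (S K'.main).head? = some Γ'.bit1) := by
  have hp : Partrec selfEval :=
    Nat.Partrec.Code.eval_part.comp (Computable.ofNat _) Computable.id
  obtain ⟨c, hc⟩ := ToPartrec.Code.exists_code (Nat.Partrec'.part_iff₁.2 hp)
  obtain ⟨St, hSt1, hSt2, hSt3⟩ := exists_states c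
  have key : ∀ n y, y ∈ selfEval n → ∃ t, run prg t ((tr (trNormal c Cont'.halt), none), inp n) =
      some (((TM2.Stmt.halt : St2), none), K'.elim (trList [y]) [] [] []) := by
    intro n y hy
    have h1 : halt [y] ∈ StateTransition.eval (TM2.step tr) (init c [n]) := by
      rw [tr_eval]
      have h2 := hc ⟨[n], rfl⟩
      have h3 : c.eval [n] = pure <$> selfEval n := h2
      rw [h3]
      exact (Part.mem_map_iff _).2 ⟨[y], (Part.mem_map_iff _).2 ⟨y, hy, rfl⟩, rfl⟩
    have h2 := (StateTransition.mem_eval.1 h1).1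
    exact run_of_reaches h2
  refine ⟨_, prg, St, (tr (trNormal c Cont'.halt), none), ((TM2.Stmt.halt : St2), none),
    hSt1 _, hSt2 _, hSt3, rfl, ?_, ?_⟩
  · intro n hn
    obtain ⟨t, ht⟩ := key n 0 hn
    refine ⟨t, _, ht, ?_⟩
    simp [K'.elim]
  · intro n hn
    obtain ⟨t, ht⟩ := key n 1 hn
    refine ⟨t, _, ht, ?_⟩
    have : trNat 1 = [Γ'.bit1] := rfl
    simp [K'.elim, this]

end Pool.Agent.Helper437.StackMachine
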